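import Pool.Agent.Y581.WN.FinC
import Pool.Agent.Y581.WN.FinS

/-!
# How many changes of an oracle separate `M[1]`, `W[1]` and all the levels of the `W`-hierarchy

For a function `g`, an oracle `A` is close to the oracle `O` if, for all large `n`, they differ on at
most `g n` strings of length at most `n` (`Close`).

* There is an oracle `O` such that, for every `g` which is not superpolynomial (`Super`), relative to
  all oracles close to `O` every problem in `W[1]` is fixed-parameter tractable.
* If `g` is larger than every power of the logarithm (`SuperLog`), then every oracle `O` is close to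
  an oracle relative to which, for all `t ≥ 1`, the model-checking problem for
  `Σ_{t+1,1}`-sentences is in `W[t+1]` and not in `A[t]`, even if the functions of the parameter in
  the definition of `A[t]` are not computable. So `W[1] ≠ W[2] ≠ W[3] ≠ …`.
* If `g` is superpolynomial, then every oracle `O` is close to an oracle relative to which all the
  levels, starting with `FPT ≠ W[1]`, are separated in this way, and at the same time the
  model-checking problem for existential sentences, which is in `W[1]`, is not in `M[1]`, even if
  `M[1]` is replaced by the larger class (`InM1n`) of all problems which are mapped, by a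
  polynomial-time algorithm after an arbitrary precomputation on the parameter `k`, to instances of
  size `(h(k) log n) ^ c` of a problem in `NP`.

For the oracle `O` of the first part: `n ^ (log log n)` changes, say, separate `M[1]` and all the
levels from each other, and polynomially many changes never even separate `FPT` from `W[1]`; but
`(log n) ^ (log log n)` changes already separate all the higher levels, while `W[1] = FPT`, so the
strictness of the hierarchy above `W[1]` is much cheaper than `W[1] ≠ M[1]`.
-/

set_option autoImplicit false

namespace Pool.Agent.Results.MP_ddf912_lc.ChangesForAllLevels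

open Pool.Agent.NPC Pool.Agent.H620R2.Gauge Pool.Agent.TH678.GC Pool.Agent.Y626.WG
open Pool.Agent.Y581.WN (InM1n SuperLog)
open Pool.Agent.Y626.WC (InFPT)
open Pool.Agent.W900.RB (Super)
open Pool.Agent.W900.CH (Close)

theorem result :
    (∃ O : Oracle, ∀ g : ℕ → ℝ, ¬ Super g → ∀ A : Oracle, Close g O A →
      ∀ (α : Type) [TEnc α] (κ : α → ℕ) (P : α → Prop), InW 1 A κ P ↔ InFPT A κ P) ∧
    (∀ g : ℕ → ℝ, SuperLog g → ∀ O : Oracle, ∃ A : Oracle, Close g O A ∧ ∀ t : ℕ, 1 ≤ t →
      (∀ (α : Type) [TEnc α] (κ : α → ℕ) (P : α → Prop), InW t A κ P →
        InW (t + 1) A κ P ∧ InA t A κ P) ∧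
      InW (t + 1) A (fun I : WInst (t + 1) => I.1.param) (fun I => I.1.Sat A) ∧
      ¬ InA t A (fun I : WInst (t + 1) => I.1.param) (fun I => I.1.Sat A)) ∧
    ∀ g : ℕ → ℝ, Super g → ∀ O : Oracle, ∃ A : Oracle, Close g O A ∧
      (∀ t : ℕ, (∀ (α : Type) [TEnc α] (κ : α → ℕ) (P : α → Prop), InW t A κ P →
        InW (t + 1) A κ P ∧ InA t A κ P) ∧
      InW (t + 1) A (fun I : WInst (t + 1) => I.1.param) (fun I => I.1.Sat A) ∧
      ¬ InA t A (fun I : WInst (t + 1) => I.1.param) (fun I => I.1.Sat A)) ∧
      ¬ InM1n A (fun I : WInst 1 => I.1.param) (fun I => I.1.Sat A) :=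
  ⟨Pool.Agent.Y581.WN.collapseF, fun _ hg O => Pool.Agent.Y581.WN.strictkF hg O,
    fun _ hg O => Pool.Agent.Y581.WN.bothF hg O⟩

end Pool.Agent.Results.MP_ddf912_lc.ChangesForAllLevels
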