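import Pool.Agent.N733.TG.K
import Pool.Agent.Results.MP_7bfa24_nt.StarshapedHeights

/-!
# The generalized abc inequality for all tuples with maximum near values of multiplicative functions

Let `f` be a positive multiplicative function of at most polynomial growth such that `f p ≤ M p` for the large primes `p`,
with different values at different large primes; for example Euler's function or the sum of the divisors. Let `G` have steps
bounded below by a positive constant and growth at most `v ^ d`, for example `G v = v`. Let `n ≥ 3`,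
`b = binom (n, ⌊n / 2⌋)`, `η > 0`, `κ ≥ 0` and `d (1 - 1 / b) / η + κ < 1`. For all `m ≤ N` but `N / (log N) ^ U`, ALL
admissible `n`-tuples `x` (the sum of the entries is `0`, no proper subsum vanishes, greatest common divisor `1`) with
`|max |x_i| - G (f m)| ≤ f(m) ^ κ` satisfy `max |x_i| < R (x_1 ⋯ x_n) ^ η`. The exponent `2 n - 5` of the conjecture is
admissible for all `d < (2 n - 5) b / (b - 1)`. The values of `f` are in general taken with very large multiplicities, and so
this does not follow from the number of exceptional tuples.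
-/

set_option autoImplicit false

namespace Pool.Agent.Results.MP_7bfa24_nt.MultiplicativeValues

open Finset
open Pool.Agent.N733.TG (LM Expanding lm_totient lm_sigma expanding_pow)

/-- `x` is admissible: the entries sum to `0`, their greatest common divisor is `1`, and no subsum
over a nonempty proper set of indices vanishes. -/
def Admissible {n : ℕ} (x : Fin n → ℤ) : Prop :=
  ∑ i, x i = 0 ∧ Finset.univ.gcd x = 1 ∧
    ∀ I : Finset (Fin n), I.Nonempty → I ≠ Finset.univ → ∑ i ∈ I, x i ≠ 0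

/-- the radical of an integer: the product of the distinct primes dividing it -/
def radical (m : ℤ) : ℕ := ∏ p ∈ m.natAbs.primeFactors, p

/-- `max |x_i|` -/
def ht {n : ℕ} (x : Fin n → ℤ) : ℕ := Finset.univ.sup fun i => (x i).natAbs

/-- **Theorem.** Let `f` be multiplicative and positive, of at most polynomial growth, with `f p ≤ M p` at the large primes,
and injective there. Let `G` have steps `≥ a > 0` and growth at most `v ^ d`, `n ≥ 3`, `b = binom (n, ⌊n / 2⌋)`, `η > 0`,
`κ ≥ 0` and `d (1 - 1 / b) / η + κ < 1`. Then for every `U` and all large `N`: for all `m ≤ N` but `N / (log N) ^ U`, ALL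
admissible `n`-tuples `x` with `|max |x_i| - G (f m)| ≤ f(m) ^ κ` satisfy `max |x_i| < R (x_1 ⋯ x_n) ^ η`. Euler's function and
the sum of the divisors are examples of such functions `f`, and `α v ^ d` with `α > 0`, `d ≥ 1` is an example of `G`. -/
theorem result :
    (∀ f : ℕ → ℕ, LM f → ∀ (G : ℕ → ℝ) (d : ℝ), Expanding G d → ∀ (n : ℕ) (η κ : ℝ), 3 ≤ n → 0 < η → 0 ≤ κ →
      d * (1 - 1 / (n.choose (n / 2) : ℝ)) / η + κ < 1 → ∀ U : ℕ, ∃ N₀ : ℕ, ∀ N : ℕ, N₀ ≤ N →
        ({m : ℕ | 1 ≤ m ∧ m ≤ N ∧ ¬ ∀ x : Fin n → ℤ, Admissible x → |(ht x : ℝ) - G (f m)| ≤ (f m : ℝ) ^ κ →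
          (ht x : ℝ) < (radical (∏ j, x j) : ℝ) ^ η}.ncard : ℝ) ≤ N / Real.log N ^ U) ∧
    (LM Nat.totient ∧ LM (fun m => ∑ d ∈ m.divisors, d)) ∧
    ∀ α d : ℝ, 0 < α → 1 ≤ d → Expanding (fun v => α * (v : ℝ) ^ d) d := by
  refine ⟨fun f hf G d hG n η κ hn hη hκ h1 U => ?_, ⟨lm_totient, lm_sigma⟩, fun α d hα hd => expanding_pow hα hd⟩
  have hη' : 0 < 1 / η := by positivity
  refine Pool.Agent.N733.TG.keep_good (fun x : Fin n → ℤ => Admissible x)
    (fun x : Fin n → ℤ => (ht x : ℝ) < (radical (∏ j, x j) : ℝ) ^ η) (fun x => ((ht x : ℕ) : ℝ)) hf hG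
    (s := 1 / η * (1 - 1 / (n.choose (n / 2) : ℝ))) (mul_nonneg hη'.le (StarshapedHeights.gap n)) hκ
    (by
      calc d * (1 / η * (1 - 1 / (n.choose (n / 2) : ℝ))) + κ = d * (1 - 1 / (n.choose (n / 2) : ℝ)) / η + κ := by ring
        _ < 1 := h1) (fun ε hε => ?_) U
  obtain ⟨K, hK⟩ := StarshapedHeights.count n hn (1 / η) hη' ε hε
  refine ⟨K, fun X hX => ?_⟩
  obtain ⟨h2, h3⟩ := hK X hX
  have he : {x : Fin n → ℤ | (Admissible x ∧ ¬ (ht x : ℝ) < (radical (∏ j, x j) : ℝ) ^ η) ∧ ((ht x : ℕ) : ℝ) ≤ X} ⊆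
      {x | x ∈ StarshapedHeights.Exc n (1 / η) ∧ (StarshapedHeights.ht x : ℝ) ≤ X} := by
    rintro x ⟨⟨g1, g2⟩, g3⟩
    refine ⟨⟨g1, ?_⟩, g3⟩
    rw [not_lt] at g2
    have h0 : (0 : ℝ) ≤ (radical (∏ j, x j) : ℝ) := Nat.cast_nonneg _
    change (radical (∏ j, x j) : ℝ) ≤ (ht x : ℝ) ^ (1 / η)
    calc (radical (∏ j, x j) : ℝ) = ((radical (∏ j, x j) : ℝ) ^ η) ^ (1 / η) := by
          rw [← Real.rpow_mul h0, mul_one_div_cancel hη.ne', Real.rpow_one]
      _ ≤ _ := Real.rpow_le_rpow (by positivity) g2 hη'.le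
  refine ⟨h2.subset he, le_trans ?_ h3⟩
  exact_mod_cast Set.ncard_le_ncard he h2

end Pool.Agent.Results.MP_7bfa24_nt.MultiplicativeValues
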