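import Pool.Agent.N760.IT.E
import Pool.Agent.Results.MP_b01859_ag.MultiplicativeValues

set_option autoImplicit false

/-!
# Rank two: discriminants near the members of the orbits of Euler's function

By the theorem of Riemann-Roch the Chern classes `c₁`, `c₂` of a complex vector bundle of rank two on `ℙ^n`
satisfy the Riemann-Roch conditions. The starting theorem FewExceptionalClasses bounds the number of the
discriminants `c₁² - 4 c₂` which are not squares. Let `φ_k` be the `k`-th iterate of Euler's function, `φ_0(m) = m`.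
Here we show: for `n ≥ n₀`, `N ≥ N₀` and for all `m ≤ N` but `ε N`, for all `k ≤ K`, EVERY pair satisfying the
Riemann-Roch conditions on `ℙ^n` with a discriminant of absolute value at most `n ^ A` and close to `G (f (φ_k m))` is the
pair of the Chern classes of `O(a) ⊕ O(b)`; here `f` is the identity, Euler's function or any multiplicative function in
the class `LM`, and `N₀` does not depend on `n`. The iterates of Euler's function are not multiplicative, their values form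
a thin set and are taken with very large multiplicities, so that this does not follow from the number of the exceptions.
-/

namespace Pool.Agent.Results.MP_b01859_ag.TotientOrbits

open Pool.Agent.R920.CH
open Pool.Agent.N733.TG (LM Expanding lm_totient lm_sigma expanding_pow)
open Pool.Agent.N760.IT (orb lm_id orbit_unif)
open MultiplicativeValues (Split Exc few)

/-- `orb f k m` is `f(φ_k(m))`, `φ_k` the `k`-th iterate of Euler's function, `φ_0(m) = m`.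
Let `A > 0`, `s ≥ 0` and `s > 1 / 2 - 2 √e / A`. (1) There is `n₀` such that for all functions `f` with `LM f`,
all expanding `G` of order `d`, all `κ ≥ 0` with `d s + κ < 1`, all `K` and all `ε > 0` there is `N₀` such that for ALL
`n ≥ n₀` and `N ≥ N₀` and all `m ≤ N` but `ε N`, for all `k ≤ K`, EVERY pair `(c₁, c₂)` which satisfies the
Riemann-Roch conditions on `ℙ^n`, with `|c₁² - 4 c₂| ≤ n ^ A` and `||c₁² - 4 c₂| - G (f (φ_k m))| ≤ f(φ_k(m)) ^ κ`,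
is of the form `(a + b, a b)`. (2) The identity, Euler's function and the sum of divisors satisfy `LM`, and `α v ^ d`
(`α > 0`, `d ≥ 1`) is expanding of order `d`. -/
theorem result (A s : ℝ) (hA : 0 < A) (hs0 : 0 ≤ s) (hs : 1 / 2 - 2 * Real.exp (1 / 2) / A < s) :
    (∃ n₀ : ℕ, ∀ (f : ℕ → ℕ) (G : ℕ → ℝ) (d κ : ℝ), LM f → Expanding G d → 0 ≤ κ → d * s + κ < 1 →
      ∀ (K : ℕ) (ε : ℝ), 0 < ε → ∃ N₀ : ℕ, ∀ n N : ℕ, n₀ ≤ n → N₀ ≤ N →
        ({m : ℕ | 1 ≤ m ∧ m ≤ N ∧ ¬ ∀ k ≤ K, ∀ c₁ c₂ : ℤ, RiemannRoch n (poly2 c₁ c₂) →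
          |((c₁ ^ 2 - 4 * c₂ : ℤ) : ℝ)| ≤ (n : ℝ) ^ A →
          |(|((c₁ ^ 2 - 4 * c₂ : ℤ) : ℝ)| - G (orb f k m))| ≤ (orb f k m : ℝ) ^ κ → Split c₁ c₂}.ncard : ℝ) ≤
            ε * N) ∧
    LM (fun m => m) ∧ LM Nat.totient ∧ LM (fun m => ∑ d ∈ m.divisors, d) ∧
    ∀ α d : ℝ, 0 < α → 1 ≤ d → Expanding (fun v => α * (v : ℝ) ^ d) d := by
  refine ⟨?_, lm_id, lm_totient, lm_sigma, fun α d hα hd => expanding_pow hα hd⟩
  obtain ⟨n₀, hn₀⟩ := few A s hA hs0 hs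
  refine ⟨n₀, fun f G d κ hf hG hκ h1 K ε hε => ?_⟩
  obtain ⟨N₀, hN₀⟩ := orbit_unif (T := ℤ) hf hG hs0 hκ h1 1 K ε hε
  refine ⟨N₀, fun n N hn hN => ?_⟩
  have h2 := hN₀ {D : ℤ | D ∈ Exc n ∧ |(D : ℝ)| ≤ (n : ℝ) ^ A} (fun D => |(D : ℝ)|) (hn₀ n hn) N hN
  refine le_trans ?_ h2
  have hfin : {m : ℕ | 1 ≤ m ∧ m ≤ N ∧ ∃ k ≤ K, ∃ t ∈ {D : ℤ | D ∈ Exc n ∧ |(D : ℝ)| ≤ (n : ℝ) ^ A},
      |(|(t : ℝ)| - G (orb f k m))| ≤ (orb f k m : ℝ) ^ κ}.Finite := by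
    apply (Set.finite_Icc 1 N).subset
    intro m hm
    exact ⟨hm.1, hm.2.1⟩
  have h3 : {m : ℕ | 1 ≤ m ∧ m ≤ N ∧ ¬ ∀ k ≤ K, ∀ c₁ c₂ : ℤ, RiemannRoch n (poly2 c₁ c₂) →
          |((c₁ ^ 2 - 4 * c₂ : ℤ) : ℝ)| ≤ (n : ℝ) ^ A →
          |(|((c₁ ^ 2 - 4 * c₂ : ℤ) : ℝ)| - G (orb f k m))| ≤ (orb f k m : ℝ) ^ κ → Split c₁ c₂} ⊆
      {m : ℕ | 1 ≤ m ∧ m ≤ N ∧ ∃ k ≤ K, ∃ t ∈ {D : ℤ | D ∈ Exc n ∧ |(D : ℝ)| ≤ (n : ℝ) ^ A},
      |(|(t : ℝ)| - G (orb f k m))| ≤ (orb f k m : ℝ) ^ κ} := by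
    rintro m ⟨h3, h4, h5⟩
    push Not at h5
    obtain ⟨k, hk, c₁, c₂, g1, g2, g3, g4⟩ := h5
    exact ⟨h3, h4, k, hk, c₁ ^ 2 - 4 * c₂, ⟨⟨c₁, c₂, g1, g4, rfl⟩, g2⟩, g3⟩
  exact_mod_cast Set.ncard_le_ncard h3 hfin

end Pool.Agent.Results.MP_b01859_ag.TotientOrbits
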